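import Pool.Agent.HPow.Fin

/-!
# RHS, module Base: Hermitian rings over an arbitrary noetherian base

`k` is a field with `q ^ (2 t)` elements, `q = p ^ m`, `B` a noetherian `k`-algebra.
-/

set_option autoImplicit false
set_option linter.unusedSectionVars false
set_option linter.style.haveILetI false

namespace Pool.Agent.RHS

open Function Polynomial Pool.Agent.Helper11 Pool.Agent.HPow

/-- The hypotheses on the base `B` and the element `h`: `K'₀` of `B`, of `B[y] / (y ^ q + y - h)` and
of `B[x, y] / (y ^ q + y - h - x ^ (q + 1))` are finitely generated up to a bounded power of `p`. -/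
def Hyp (p q : ℕ) (B : Type) [CommRing B] (h : B) : Prop :=
  GoodP p B ∧ GoodP p (AS1 q B h) ∧ GoodP p (AS1 q B[X] (C h + X ^ (q + 1)))

/-- The coordinate ring `B[y₁, …, y_s, x₁, …, x_n] / (y_i ^ q + y_i - h_i - ∑ a_ij x_j ^ (q + 1))`. -/
abbrev HermB (q : ℕ) {k B : Type} [Field k] [CommRing B] [Algebra k B] {s n : ℕ} (h : Fin s → B)
    (a : Fin s → Fin n → k) : Type :=
  MvPolynomial (Fin s ⊕ Fin n) B ⧸ Ideal.span (Set.range fun i =>
    MvPolynomial.X (Sum.inl i) ^ q + MvPolynomial.X (Sum.inl i) - MvPolynomial.C (h i) -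
      ∑ j, MvPolynomial.C (algebraMap k B (a i j)) * MvPolynomial.X (Sum.inr j) ^ (q + 1))

variable {p m q t : ℕ} {k : Type} [Field k] {B : Type} [CommRing B] [Algebra k B]

/-- change of the coefficient -/
theorem base_scale (q : ℕ) (h : B) (b l : k) (hl0 : l ≠ 0) (hl : l ^ (q + 1) = b) :
    Nonempty (AS1 q B[X] (C h + X ^ (q + 1)) ≃+* AS1 q B[X] (HPow.ext q h b)) := by
  letI : Invertible (algebraMap k B l) :=
    (invertibleOfNonzero hl0).map (algebraMap k B)
  refine stp_congr q (Polynomial.algEquivCMulXAddC (algebraMap k B l) 0).toRingEquiv _ _ ?_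
  show (Polynomial.algEquivCMulXAddC (algebraMap k B l) 0) (C h + X ^ (q + 1)) = _
  rw [HPow.ext, ← hl, map_add, map_pow, Polynomial.algEquivCMulXAddC_apply,
    Polynomial.algEquivCMulXAddC_apply, aeval_C, aeval_X, map_pow, C_0, add_zero, mul_pow,
    C_pow]
  rfl

theorem G2_of_hyp (hk : Setg p m q t k) [IsNoetherianRing B] (h : B) (H : Hyp p q B h) :
    G2 p q k B h := by
  refine ⟨H.1, H.2.1, fun b hb => ?_⟩
  by_cases hb0 : b = 0
  · subst hb0
    rw [stp_ext_zero]
    exact good_add q h H.2.1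
  · obtain ⟨l, hl0, hl⟩ := hk.exists_norm b hb hb0
    obtain ⟨e⟩ := base_scale q h b l hl0 hl
    exact GoodP.of_equiv e H.2.2

/-- adding the variables -/
theorem G2_mv (hk : Setg p m q t k) [IsNoetherianRing B] (h : B) (hG : G2 p q k B h) (n : ℕ)
    (b : Fin n → k) (hb : ∀ j, b j ^ q = b j) :
    G2 p q k (MvPolynomial (Fin n) B)
      (MvPolynomial.C h +
        ∑ j, MvPolynomial.C (algebraMap k B (b j)) * MvPolynomial.X j ^ (q + 1)) := by
  induction n with
  | zero =>
    have h1 := G2.of_equiv ((MvPolynomial.isEmptyAlgEquiv B (Fin 0)).symm.restrictScalars k) h hG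
    have h2 : ((MvPolynomial.isEmptyAlgEquiv B (Fin 0)).symm.restrictScalars k) h =
        MvPolynomial.C h := by
      exact (MvPolynomial.isEmptyAlgEquiv B (Fin 0)).symm.commutes h
    rw [h2] at h1
    rw [Finset.univ_eq_empty, Finset.sum_empty, add_zero]
    exact h1
  | succ n ih =>
    have h1 := G2.step hk _ (ih (fun j => b j.succ) (fun j => hb j.succ)) (b 0) (hb 0)
    have h2 := G2.of_equiv ((MvPolynomial.finSuccEquiv B n).symm.restrictScalars k) _ h1
    have h3 : ((MvPolynomial.finSuccEquiv B n).symm.restrictScalars k)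
        (HPow.ext q (MvPolynomial.C h + ∑ j : Fin n,
        MvPolynomial.C (algebraMap k B (b j.succ)) * MvPolynomial.X j ^ (q + 1)) (b 0)) =
        MvPolynomial.C h +
          ∑ j, MvPolynomial.C (algebraMap k B (b j)) * MvPolynomial.X j ^ (q + 1) := by
      rw [AlgEquiv.restrictScalars_apply, AlgEquiv.symm_apply_eq, Fin.sum_univ_succ, map_add,
        map_add, map_sum, map_mul, map_pow, MvPolynomial.finSuccEquiv_X_zero]
      have hC : ∀ c : B, MvPolynomial.finSuccEquiv B n (MvPolynomial.C c) =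
          C (MvPolynomial.C c) := fun c => by
        rw [← MvPolynomial.algebraMap_eq, AlgEquiv.commutes]
        rfl
      have hA : algebraMap k (MvPolynomial (Fin n) B) (b 0) =
          MvPolynomial.C (algebraMap k B (b 0)) := rfl
      simp only [map_mul, map_pow, MvPolynomial.finSuccEquiv_X_succ, hC, HPow.ext, map_sum, map_add, hA]
      ring
    rw [h3] at h2
    exact h2

/-- the two presentations -/
theorem base_iso (q : ℕ) {s n : ℕ} (h : Fin s → B) (a : Fin s → Fin n → k) :
    Nonempty (AS q (MvPolynomial (Fin n) B) (fun i => MvPolynomial.C (h i) +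
      ∑ j, MvPolynomial.C (algebraMap k B (a i j)) * MvPolynomial.X j ^ (q + 1)) ≃+*
        HermB q h a) := by
  refine ⟨(Ideal.quotientEquiv _ _ (MvPolynomial.sumRingEquiv B (Fin s) (Fin n))
    ?_).symm⟩
  rw [Ideal.map_span, ← Set.range_comp]
  refine congrArg (fun z => Ideal.span (Set.range z)) (funext fun i => ?_)
  have h4 : (MvPolynomial.sumRingEquiv B (Fin s) (Fin n))
      (MvPolynomial.X (Sum.inl i) ^ q + MvPolynomial.X (Sum.inl i) - MvPolynomial.C (h i) -
        ∑ j, MvPolynomial.C (algebraMap k B (a i j)) * MvPolynomial.X (Sum.inr j) ^ (q + 1)) =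
      MvPolynomial.X i ^ q + MvPolynomial.X i -
        MvPolynomial.C (MvPolynomial.C (h i) +
          ∑ j, MvPolynomial.C (algebraMap k B (a i j)) * MvPolynomial.X j ^ (q + 1)) := by
    rw [map_sub, map_sub, map_add, map_pow, map_sum, MvPolynomial.sumRingEquiv_X_inl,
      MvPolynomial.sumRingEquiv_C, map_add, map_sum, sub_sub]
    refine congrArg (fun z => _ - (_ + z)) (Finset.sum_congr rfl fun j _ => ?_)
    rw [map_mul, map_pow, MvPolynomial.sumRingEquiv_X_inr, MvPolynomial.sumRingEquiv_C,
      map_mul, map_pow]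
  exact h4.symm

/-- **Hermitian rings over a base.** -/
theorem relH (hk : Setg p m q t k) [IsNoetherianRing B] {s n : ℕ} (h : Fin s → B)
    (a : Fin s → Fin n → k) (ha : ∀ i j, a i j ^ q = a i j) (H0 : GoodP p B)
    (H : ∀ c : Fin s → k, (∀ i, c i ^ q = c i) →
      Hyp p q B (∑ i, algebraMap k B (c i) * h i)) : GoodP p (HermB q h a) := by
  obtain ⟨e⟩ := base_iso q h a
  have hfr : ∀ (r : Finset (Fin s)) (F : Fin s → k), (∑ i ∈ r, F i) ^ q =
      ∑ i ∈ r, F i ^ q := by
    classical
    intro r F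
    induction r using Finset.induction_on with
    | empty => simp [show q ≠ 0 by have := hk.q_two_le; omega]
    | insert i r hi ih => rw [Finset.sum_insert hi, Finset.sum_insert hi, hk.add_pow, ih]
  refine GoodP.of_equiv e (as_good hk _ (H0.mvPolynomial (Fin n)) ?_)
  intro c hc
  have h1 := (G2_mv hk _ (G2_of_hyp hk _ (H c hc)) n (fun j => ∑ i, c i * a i j) (fun j => by
    show (∑ i, c i * a i j) ^ q = ∑ i, c i * a i j
    rw [hfr]
    refine Finset.sum_congr rfl (fun i _ => ?_)
    rw [mul_pow, hc i, ha i j])).2.1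
  have e1 : (∑ i, algebraMap k (MvPolynomial (Fin n) B) (c i) *
      (MvPolynomial.C (h i) +
        ∑ j, MvPolynomial.C (algebraMap k B (a i j)) * MvPolynomial.X j ^ (q + 1))) =
      MvPolynomial.C (∑ i, algebraMap k B (c i) * h i) +
        ∑ j, MvPolynomial.C (algebraMap k B (∑ i, c i * a i j)) *
          MvPolynomial.X j ^ (q + 1) := by
    have hA : ∀ x : k, algebraMap k (MvPolynomial (Fin n) B) x =
      MvPolynomial.C (algebraMap k B x) := fun _ => rfl
    simp only [Finset.mul_sum, map_sum, Finset.sum_mul, map_mul, hA, mul_add,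
      Finset.sum_add_distrib, mul_assoc]
    rw [Finset.sum_comm (s := (Finset.univ : Finset (Fin s)))]
  rw [e1]
  exact h1

end Pool.Agent.RHS
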