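import Pool.Agent.RHS.Base

/-!
# RHS, module Par: Hermitian rings over a base, by parity of the number of variables
-/

set_option autoImplicit false
set_option linter.unusedSectionVars false
set_option linter.style.haveILetI false

namespace Pool.Agent.RHS

open Function Polynomial Pool.Agent.Helper11 Pool.Agent.HPow

variable {p m q t : ℕ} {k : Type} [Field k] {W : Type} [CommRing W] [Algebra k W]

/-- The state `(W, h)` when `r` more variables with nonzero coefficient are to be added. -/
def Ps (p q : ℕ) (k : Type) [Field k] (W : Type) [CommRing W] [Algebra k W] (h : W) (r : ℕ) :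
    Prop :=
  GoodP p W ∧ (Even r → GoodP p (AS1 q W h)) ∧
    (¬ Even r → ∀ b : k, b ^ q = b → b ≠ 0 → GoodP p (AS1 q W[X] (HPow.ext q h b)))

theorem Ps.step_zero [IsNoetherianRing W] (h : W) (r : ℕ) (hG : Ps p q k W h r) :
    Ps p q k W[X] (HPow.ext q h (0 : k)) r := by
  refine ⟨hG.1.polynomial, fun hr => ?_, fun hr b' hb' hb0 => ?_⟩
  · rw [stp_ext_zero]
    exact good_add q h (hG.2.1 hr)
  · obtain ⟨e⟩ := iso_swap2 q h b' (0 : k)
    refine GoodP.of_equiv e ?_
    rw [stp_ext_zero]
    exact good_add q _ (hG.2.2 hr b' hb' hb0)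

theorem Ps.step (hk : Setg p m q t k) [IsNoetherianRing W] (h : W) (r : ℕ)
    (hG : Ps p q k W h (r + 1)) (b : k) (hb : b ^ q = b) (hb0 : b ≠ 0) :
    Ps p q k W[X] (HPow.ext q h b) r := by
  refine ⟨hG.1.polynomial, fun hr => ?_, fun hr b' hb' hb0' => ?_⟩
  · exact hG.2.2 (by rwa [Nat.even_add_one, not_not]) b hb hb0
  · exact hyp_good hk h hG.1 (hG.2.1 (by rwa [Nat.even_add_one])) b b' hb hb' hb0 hb0'

theorem Ps.of_equiv {W' : Type} [CommRing W'] [Algebra k W'] (e : W ≃ₐ[k] W') (h : W) (r : ℕ)
    (hG : Ps p q k W h r) : Ps p q k W' (e h) r := by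
  refine ⟨GoodP.of_equiv e.toRingEquiv hG.1, fun hr => ?_, fun hr b hb hb0 => ?_⟩
  · obtain ⟨e1⟩ := stp_congr q e.toRingEquiv h (e h) rfl
    exact GoodP.of_equiv e1 (hG.2.1 hr)
  · obtain ⟨e1⟩ := stp_congr q (Polynomial.mapEquiv e.toRingEquiv) (HPow.ext q h b)
      (HPow.ext q (e h) b) (by
      show Polynomial.map (e.toRingEquiv : W →+* W') (HPow.ext q h b) = _
      rw [HPow.ext, HPow.ext, Polynomial.map_add, Polynomial.map_mul, Polynomial.map_pow,
        Polynomial.map_X, Polynomial.map_C, Polynomial.map_C]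
      show C (e h) + C (e (algebraMap k W b)) * _ = _
      rw [AlgEquiv.commutes])
    exact GoodP.of_equiv e1 (hG.2.2 hr b hb hb0)

open Classical in
/-- adding the variables -/
theorem Ps.mv (hk : Setg p m q t k) [IsNoetherianRing W] (h : W) (n : ℕ) :
    ∀ (b : Fin n → k), (∀ j, b j ^ q = b j) → ∀ r : ℕ,
    Ps p q k W h (r + (Finset.univ.filter fun j => b j ≠ 0).card) →
    Ps p q k (MvPolynomial (Fin n) W)
      (MvPolynomial.C h +
        ∑ j, MvPolynomial.C (algebraMap k W (b j)) * MvPolynomial.X j ^ (q + 1)) r := by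
  induction n with
  | zero =>
    intro b hb r hG
    rw [Finset.univ_eq_empty, Finset.filter_empty, Finset.card_empty, add_zero] at hG
    have h1 := Ps.of_equiv ((MvPolynomial.isEmptyAlgEquiv W (Fin 0)).symm.restrictScalars k) h r hG
    have h2 : ((MvPolynomial.isEmptyAlgEquiv W (Fin 0)).symm.restrictScalars k) h =
        MvPolynomial.C h := by
      exact (MvPolynomial.isEmptyAlgEquiv W (Fin 0)).symm.commutes h
    rw [h2] at h1
    rw [Finset.univ_eq_empty, Finset.sum_empty, add_zero]
    exact h1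
  | succ n ih =>
    intro b hb r hG
    have h1 : Ps p q k (MvPolynomial (Fin n) W)[X] (HPow.ext q (MvPolynomial.C h +
        ∑ j : Fin n, MvPolynomial.C (algebraMap k W (b j.succ)) * MvPolynomial.X j ^ (q + 1))
        (b 0)) r := by
      rw [Fin.card_filter_univ_succ] at hG
      by_cases hb0 : b 0 = 0
      · rw [if_neg (by rwa [not_not])] at hG
        rw [hb0]
        exact Ps.step_zero _ r (ih (fun j => b j.succ) (fun j => hb j.succ) r hG)
      · rw [if_pos hb0] at hG
        refine Ps.step hk _ r (ih (fun j => b j.succ) (fun j => hb j.succ) (r + 1) ?_) (b 0) (hb 0)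
          hb0
        rw [add_right_comm, ← add_assoc] at *
        exact hG
    have h2 := Ps.of_equiv ((MvPolynomial.finSuccEquiv W n).symm.restrictScalars k) _ r h1
    have h3 : ((MvPolynomial.finSuccEquiv W n).symm.restrictScalars k)
        (HPow.ext q (MvPolynomial.C h + ∑ j : Fin n,
        MvPolynomial.C (algebraMap k W (b j.succ)) * MvPolynomial.X j ^ (q + 1)) (b 0)) =
        MvPolynomial.C h +
          ∑ j, MvPolynomial.C (algebraMap k W (b j)) * MvPolynomial.X j ^ (q + 1) := by
      rw [AlgEquiv.restrictScalars_apply, AlgEquiv.symm_apply_eq, Fin.sum_univ_succ, map_add,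
        map_add, map_sum, map_mul, map_pow, MvPolynomial.finSuccEquiv_X_zero]
      have hC : ∀ c : W, MvPolynomial.finSuccEquiv W n (MvPolynomial.C c) =
          C (MvPolynomial.C c) := fun c => by
        rw [← MvPolynomial.algebraMap_eq, AlgEquiv.commutes]
        rfl
      have hA : algebraMap k (MvPolynomial (Fin n) W) (b 0) =
          MvPolynomial.C (algebraMap k W (b 0)) := rfl
      simp only [map_mul, map_pow, MvPolynomial.finSuccEquiv_X_succ, hC, HPow.ext, map_sum,
        map_add, hA]
      ring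
    rw [h3] at h2
    exact h2

/-- **Hermitian rings over a base, by parity.** -/
theorem relP (hk : Setg p m q t k) {B : Type} [CommRing B] [Algebra k B] [IsNoetherianRing B]
    {s n : ℕ} (h : Fin s → B) (a : Fin s → Fin n → k) (ha : ∀ i j, a i j ^ q = a i j)
    (H0 : GoodP p B)
    (He : ∀ c : Fin s → k, (∀ i, c i ^ q = c i) → Even (Nat.card {j // ∑ i, c i * a i j ≠ 0}) →
      GoodP p (AS1 q B (∑ i, algebraMap k B (c i) * h i)))
    (Ho : ∀ c : Fin s → k, (∀ i, c i ^ q = c i) → ¬ Even (Nat.card {j // ∑ i, c i * a i j ≠ 0}) →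
      GoodP p (AS1 q B[X] (C (∑ i, algebraMap k B (c i) * h i) + X ^ (q + 1)))) :
    GoodP p (HermB q h a) := by
  classical
  obtain ⟨e⟩ := base_iso q h a
  have hfr : ∀ (r : Finset (Fin s)) (F : Fin s → k), (∑ i ∈ r, F i) ^ q =
      ∑ i ∈ r, F i ^ q := by
    intro r F
    induction r using Finset.induction_on with
    | empty => simp [show q ≠ 0 by have := hk.q_two_le; omega]
    | insert i r hi ih => rw [Finset.sum_insert hi, Finset.sum_insert hi, hk.add_pow, ih]
  refine GoodP.of_equiv e (as_good hk _ (H0.mvPolynomial (Fin n)) ?_)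
  intro c hc
  have hcard : Nat.card {j // ∑ i, c i * a i j ≠ 0} =
      (Finset.univ.filter fun j => ∑ i, c i * a i j ≠ 0).card := by
    rw [Nat.card_eq_fintype_card, Fintype.card_subtype]
  have hst : Ps p q k B (∑ i, algebraMap k B (c i) * h i)
      (0 + (Finset.univ.filter fun j => ∑ i, c i * a i j ≠ 0).card) := by
    rw [zero_add, ← hcard]
    refine ⟨H0, He c hc, fun hr b hb hb0 => ?_⟩
    obtain ⟨l, hl0, hl⟩ := hk.exists_norm b hb hb0
    obtain ⟨e⟩ := base_scale q (∑ i, algebraMap k B (c i) * h i) b l hl0 hl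
    exact GoodP.of_equiv e (Ho c hc hr)
  have h1 := (Ps.mv hk _ n (fun j => ∑ i, c i * a i j) (fun j => by
    show (∑ i, c i * a i j) ^ q = ∑ i, c i * a i j
    rw [hfr]
    refine Finset.sum_congr rfl (fun i _ => ?_)
    rw [mul_pow, hc i, ha i j]) 0 hst).2.1 ⟨0, rfl⟩
  have e1 : (∑ i, algebraMap k (MvPolynomial (Fin n) B) (c i) *
      (MvPolynomial.C (h i) +
        ∑ j, MvPolynomial.C (algebraMap k B (a i j)) * MvPolynomial.X j ^ (q + 1))) =
      MvPolynomial.C (∑ i, algebraMap k B (c i) * h i) +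
        ∑ j, MvPolynomial.C (algebraMap k B (∑ i, c i * a i j)) *
          MvPolynomial.X j ^ (q + 1) := by
    have hA : ∀ x : k, algebraMap k (MvPolynomial (Fin n) B) x =
      MvPolynomial.C (algebraMap k B x) := fun _ => rfl
    simp only [Finset.mul_sum, map_sum, Finset.sum_mul, map_mul, hA, mul_add,
      Finset.sum_add_distrib, mul_assoc]
    rw [Finset.sum_comm (s := (Finset.univ : Finset (Fin s)))]
  rw [e1]
  exact h1

end Pool.Agent.RHS
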