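import Pool.Agent.RHS.Par
import Pool.Agent.HPow.Curve
import Mathlib.RingTheory.NoetherNormalization
import Mathlib.RingTheory.Ideal.HasGoingUp

/-!
# RHS, module Dim1: bases of dimension at most one
-/

set_option autoImplicit false
set_option linter.unusedSectionVars false
set_option linter.style.haveILetI false

namespace Pool.Agent.RHS

open Function Polynomial Pool.Agent.Helper11 Pool.Agent.HPow Pool.Agent.Helper67.Bass

/-- dimension of a subring over which the ring is integral -/
theorem dim1_le {R S : Type} [CommRing R] [CommRing S] [Algebra R S] [Algebra.IsIntegral R S]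
    (hinj : Injective (algebraMap R S)) : ringKrullDim R ≤ ringKrullDim S := by
  haveI : FaithfulSMul R S := (faithfulSMul_iff_algebraMap_injective R S).2 hinj
  refine iSup_le fun l => ?_
  obtain ⟨P, hP, hlo⟩ := (inferInstance : Nonempty (Ideal.primesOver (RelSeries.head l).asIdeal S))
  haveI := hP
  haveI := hlo
  obtain ⟨L, hL, -⟩ := Ideal.exists_ltSeries_of_hasGoingUp l P
  rw [← hL]
  exact le_iSup (fun l : LTSeries (PrimeSpectrum S) => (l.length : WithBot ℕ∞)) L

/-- a finitely generated algebra over `𝔽_p` of dimension at most one is integral over `𝔽_p[x]` -/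
theorem dim1_exists (p : ℕ) [Fact p.Prime] (A : Type) [CommRing A] [Algebra (ZMod p) A]
    [Algebra.FiniteType (ZMod p) A] (hd : ringKrullDim A ≤ 1) :
    ∃ x : A, ((aeval x : (ZMod p)[X] →ₐ[ZMod p] A) : (ZMod p)[X] →+* A).IsIntegral := by
  cases subsingleton_or_nontrivial A with
  | inl hA => exact ⟨0, fun a => ⟨1, monic_one, Subsingleton.elim _ _⟩⟩
  | inr hA =>
    obtain ⟨s, g, hg, hi⟩ := exists_integral_inj_algHom_of_fg (ZMod p) A
    have hs : s ≤ 1 := by
      letI : Algebra (MvPolynomial (Fin s) (ZMod p)) A := g.toRingHom.toAlgebra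
      haveI : Algebra.IsIntegral (MvPolynomial (Fin s) (ZMod p)) A := ⟨hi⟩
      have h1 := (dim1_le (R := MvPolynomial (Fin s) (ZMod p)) (S := A) hg).trans hd
      rw [MvPolynomial.ringKrullDim_of_isNoetherianRing, ringKrullDim_eq_zero_of_field, zero_add,
        Nat.card_eq_fintype_card, Fintype.card_fin] at h1
      exact_mod_cast h1
    let y : Fin s → (ZMod p)[X] := fun _ => X
    let x : A := ∑ i, g (MvPolynomial.X i)
    have hx : ∀ i, x = g (MvPolynomial.X i) := by
      intro i
      have hsub : Subsingleton (Fin s) := by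
        rw [← Finite.card_le_one_iff_subsingleton, Nat.card_eq_fintype_card, Fintype.card_fin]
        exact hs
      exact (Finset.sum_eq_single i (fun j _ hj => absurd (Subsingleton.elim j i) hj)
        (fun h => absurd (Finset.mem_univ i) h))
    refine ⟨x, ?_⟩
    have hcomp : ((aeval x : (ZMod p)[X] →ₐ[ZMod p] A)).comp
        (MvPolynomial.aeval y : MvPolynomial (Fin s) (ZMod p) →ₐ[ZMod p] (ZMod p)[X]) = g := by
      apply MvPolynomial.algHom_ext
      intro i
      rw [AlgHom.comp_apply, MvPolynomial.aeval_X]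
      show aeval x (X : (ZMod p)[X]) = _
      rw [aeval_X, hx i]
    refine RingHom.IsIntegral.tower_top
      ((MvPolynomial.aeval y : MvPolynomial (Fin s) (ZMod p) →ₐ[ZMod p] (ZMod p)[X]) :
        MvPolynomial (Fin s) (ZMod p) →+* (ZMod p)[X]) _ ?_
    have h2 : ((aeval x : (ZMod p)[X] →ₐ[ZMod p] A) : (ZMod p)[X] →+* A).comp
        ((MvPolynomial.aeval y : MvPolynomial (Fin s) (ZMod p) →ₐ[ZMod p] (ZMod p)[X]) :
        MvPolynomial (Fin s) (ZMod p) →+* (ZMod p)[X]) = (g : MvPolynomial (Fin s) (ZMod p) →+* A) :=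
      RingHom.ext fun z => DFunLike.congr_fun hcomp z
    rw [h2]
    exact hi

/-- rings finite over a ring of dimension at most one -/
theorem dim1_finGn (p : ℕ) [Fact p.Prime] (A : Type) [CommRing A] [Algebra (ZMod p) A]
    [Algebra.FiniteType (ZMod p) A] (hd : ringKrullDim A ≤ 1) (C : Type) [CommRing C]
    [Algebra A C] [Module.Finite A C] : FinGn C := by
  obtain ⟨x, hx⟩ := dim1_exists p A hd
  letI : Algebra (ZMod p) C := ((algebraMap A C).comp (algebraMap (ZMod p) A)).toAlgebra
  haveI : IsScalarTower (ZMod p) A C := IsScalarTower.of_algebraMap_eq fun _ => rfl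
  haveI : Algebra.FiniteType (ZMod p) C := Algebra.FiniteType.trans (S := A) inferInstance
    inferInstance
  haveI : Module.Finite ℤ (ZMod p) := Module.Finite.of_finite
  haveI : Algebra.FiniteType ℤ C := Algebra.FiniteType.trans (S := ZMod p) inferInstance
    inferInstance
  letI : Algebra (ZMod p)[X] A := (aeval x : (ZMod p)[X] →ₐ[ZMod p] A).toRingHom.toAlgebra
  letI : Algebra (ZMod p)[X] C := ((algebraMap A C).comp (algebraMap (ZMod p)[X] A)).toAlgebra
  haveI : IsScalarTower (ZMod p)[X] A C := IsScalarTower.of_algebraMap_eq fun _ => rfl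
  haveI h1 : Algebra.IsIntegral (ZMod p)[X] A := ⟨hx⟩
  haveI h2 : Algebra.IsIntegral (ZMod p)[X] C := Algebra.IsIntegral.trans A
  exact finGn_curve p C (algebraMap (ZMod p)[X] C X) rfl h2

variable {p m q t : ℕ} {k : Type} [Field k]

/-- **Families of Hermitian varieties over curves.** -/
theorem fam1 (hk : Setg p m q t k) {B : Type} [CommRing B] [Algebra k B]
    [Algebra.FiniteType k B] (hd : ringKrullDim B ≤ 1) {s n : ℕ} (h : Fin s → B)
    (a : Fin s → Fin n → k) (ha : ∀ i j, a i j ^ q = a i j)
    (he : ∀ c : Fin s → k, (∀ i, c i ^ q = c i) → Even (Nat.card {j // ∑ i, c i * a i j ≠ 0})) :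
    GoodP p (HermB q h a) := by
  haveI : Fact p.Prime := ⟨hk.hp⟩
  haveI : Finite k := hk.finite
  haveI : CharP k p := hk.charP
  letI : Algebra (ZMod p) k := ZMod.algebra k p
  letI : Algebra (ZMod p) B := ((algebraMap k B).comp (algebraMap (ZMod p) k)).toAlgebra
  haveI : IsScalarTower (ZMod p) k B := IsScalarTower.of_algebraMap_eq fun _ => rfl
  haveI : Module.Finite (ZMod p) k := Module.Finite.of_finite
  haveI : Algebra.FiniteType (ZMod p) B := Algebra.FiniteType.trans (S := k) inferInstance
    inferInstance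
  haveI : IsNoetherianRing B := Algebra.FiniteType.isNoetherianRing k B
  have hq2 := hk.q_two_le
  refine relP hk h a ha (GoodP.of_finGn p (dim1_finGn p B hd B)) (fun c hc _ => ?_)
    (fun c hc hn => absurd (he c hc) hn)
  have hmon : (X ^ q + X - C (∑ i, algebraMap k B (c i) * h i) : B[X]).Monic := by
    cases subsingleton_or_nontrivial B with
    | inl hB => exact Subsingleton.elim _ _
    | inr hB =>
      have h1 : (X ^ q + X - C (∑ i, algebraMap k B (c i) * h i) : B[X]) =
          X ^ q + (X - C (∑ i, algebraMap k B (c i) * h i)) := by ring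
      rw [h1]
      refine monic_X_pow_add ?_
      refine lt_of_le_of_lt (degree_X_sub_C_le _) ?_
      exact_mod_cast hq2
  haveI : Module.Finite B (AS1 q B (∑ i, algebraMap k B (c i) * h i)) := hmon.finite_adjoinRoot
  exact GoodP.of_finGn p (dim1_finGn p B hd _)

end Pool.Agent.RHS
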